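import Pool.Agent.Y672.ZS.Base

/-!
# Covers of multigraphs
-/

set_option autoImplicit false

namespace Pool.Agent.Y672.ZS.C

open Finset Pool.Agent.Y819.ZF Pool.Agent.TH378.LC Pool.Agent.Y672.ZS

/-- voltages on the factors with given multiplicities -/
theorem exists_gam {V P : Type} [Finite V] [Finite P] [One P] {d : ℕ} (κ : V → V → P → ℕ)
    (F : Fin d → V → V) (hF : ∀ v w, Nat.card {i // F i v = w} = ∑ᶠ x, κ v w x) (v w : V) :
    ∃ γ : Fin d → P, ∀ x, Nat.card {i // F i v = w ∧ γ i = x} = κ v w x := by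
  classical
  have := Fintype.ofFinite P
  have h1 : Nat.card {i // F i v = w} = Nat.card (Σ x : P, Fin (κ v w x)) := by
    rw [hF, finsum_eq_sum_of_fintype, Nat.card_sigma]
    simp
  obtain ⟨e⟩ := Finite.card_eq.1 h1
  refine ⟨fun i => if h : F i v = w then (e ⟨i, h⟩).1 else 1, fun x => ?_⟩
  have h2 : Nat.card {s : (Σ x : P, Fin (κ v w x)) // s.1 = x} = κ v w x := by
    rw [Nat.card_congr (Equiv.sigmaSubtype (β := fun x : P => Fin (κ v w x)) x)]
    simp
  rw [← h2]
  refine Nat.card_congr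
    { toFun := fun i => ⟨e ⟨i.1, i.2.1⟩, by
        have h3 := i.2.2
        simp only [dif_pos i.2.1] at h3
        exact h3⟩
      invFun := fun s => ⟨(e.symm s.1).1, (e.symm s.1).2, by
        simp only [dif_pos (e.symm s.1).2, Subtype.coe_eta, Equiv.apply_symm_apply]
        exact s.2⟩
      left_inv := fun i => by simp
      right_inv := fun s => by simp }

/-- symmetric voltages -/
theorem exists_bet {V P : Type} [Finite V] [Group P] [Finite P] {d : ℕ} (κ : V → V → P → ℕ)
    (hκ : ∀ v w x, κ w v x⁻¹ = κ v w x) (F : Fin d → V → V)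
    (hF : IsFac (fun v w => ∑ᶠ x, κ v w x) F) :
    ∃ β : Fin d → V → P, (∀ i v, β i (F i v) = (β i v)⁻¹) ∧
      ∀ v w x, Nat.card {i // F i v = w ∧ β i v = x} = κ v w x := by
  classical
  choose γ hγ using exists_gam κ F hF.mult
  obtain ⟨n, ⟨idx⟩⟩ := Finite.exists_equiv_fin V
  obtain ⟨β, hβ⟩ : ∃ β : Fin d → V → P, ∀ i v, β i v =
      if idx v < idx (F i v) then γ v (F i v) i else (γ (F i v) v i)⁻¹ := ⟨_, fun _ _ => rfl⟩
  refine ⟨β, ?_, ?_⟩
  · intro i v
    rw [hβ, hβ, hF.inv]
    rcases lt_trichotomy (idx v) (idx (F i v)) with h | h | h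
    · rw [if_neg (not_lt.2 h.le), if_pos h]
    · exact absurd (idx.injective h).symm (hF.ne i v)
    · rw [if_pos h, if_neg (not_lt.2 h.le), inv_inv]
  · intro v w x
    rcases lt_trichotomy (idx v) (idx w) with h | h | h
    · rw [← hγ v w x]
      refine Nat.card_congr (Equiv.subtypeEquivRight fun i => ?_)
      constructor
      · rintro ⟨h1, h2⟩
        subst h1
        rw [hβ, if_pos h] at h2
        exact ⟨rfl, h2⟩
      · rintro ⟨h1, h2⟩
        subst h1
        rw [hβ, if_pos h]
        exact ⟨rfl, h2⟩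
    · have h1 : v = w := idx.injective h
      subst h1
      have h2 : ∑ᶠ x, κ v v x = 0 := by
        have := hF.mult v v
        rw [← this, Nat.card_eq_zero]
        left
        exact ⟨fun i => hF.ne i.1 v i.2⟩
      have h3 : κ v v x = 0 := by
        have := Fintype.ofFinite P
        rw [finsum_eq_sum_of_fintype, Finset.sum_eq_zero_iff] at h2
        exact h2 x (Finset.mem_univ _)
      rw [h3, Nat.card_eq_zero]
      left
      exact ⟨fun i => hF.ne i.1 v i.2.1⟩
    · rw [← hκ v w x, ← hγ w v x⁻¹]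
      refine Nat.card_congr (Equiv.subtypeEquivRight fun i => ?_)
      constructor
      · rintro ⟨h1, h2⟩
        subst h1
        rw [hβ, if_neg (not_lt.2 h.le)] at h2
        exact ⟨hF.inv _ _, by rw [← h2, inv_inv]⟩
      · rintro ⟨h1, h2⟩
        have h3 : F i v = w := by rw [← h1, hF.inv]
        subst h3
        rw [hβ, if_neg (not_lt.2 h.le), h2, inv_inv]
        exact ⟨rfl, rfl⟩

theorem main (h1 : S_FACB) (h2 : S_FACF) : S_COVM := by
  classical
  intro p hp V P Ω _ _ _ _ hP κ hκ hreg hOK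
  obtain ⟨F, hF, hA⟩ := h2 p V _ hreg hOK
  have hfV : Finite V := hreg.fin
  obtain ⟨β, hβ1, hβ2⟩ := exists_bet κ hκ F hF
  have hfac : IsFac (covM (Ω := Ω) κ) (pcov (Ω := Ω) F β) := by
    refine ⟨?_, ?_, ?_⟩
    · rintro i ⟨v, o⟩
      simp only [pcov]
      rw [hF.inv, hβ1, inv_smul_smul]
    · rintro i ⟨v, o⟩ h
      simp only [pcov, Prod.mk.injEq] at h
      exact hF.ne i v h.1
    · rintro ⟨v, o⟩ ⟨w, o'⟩
      unfold covM
      have h3 := card_fib_sub (fun i : Fin (p - 2) => F i v = w) (fun x : P => x • o = o')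
        (fun i => β i v)
      simp only [hβ2] at h3
      rw [← h3]
      refine Nat.card_congr (Equiv.subtypeEquivRight fun i => ?_)
      simp only [pcov, Prod.mk.injEq]
  refine ⟨regM_of_isFac hfac, h1 p (V × Ω) _ _ hfac fun inst => ?_⟩
  exact pcov_not_dvd p hP F β hA inst

end Pool.Agent.Y672.ZS.C
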