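import Pool.Agent.Y819.ZF.StmS

/-!
# 1-factorizations of multigraphs: regularity and counting
-/

set_option autoImplicit false

namespace Pool.Agent.Y672.ZS

open Finset Pool.Agent.Y819.ZF

/-- the value of a count by the fibres of a map -/
theorem card_fib {A X : Type} [Finite A] [Fintype X] (g : A → X) :
    Nat.card A = ∑ x : X, Nat.card {a // g a = x} := by
  rw [← Nat.card_sigma]
  exact (Nat.card_congr (Equiv.sigmaFiberEquiv g)).symm

/-- the value of a count by the fibres of a map, over a subset -/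
theorem card_fib_sub {A X : Type} [Finite A] [Finite X] (Q : A → Prop) (R : X → Prop) (g : A → X) :
    Nat.card {a // Q a ∧ R (g a)} = ∑ᶠ x : {x // R x}, Nat.card {a // Q a ∧ g a = x.1} := by
  classical
  have := Fintype.ofFinite {x // R x}
  rw [finsum_eq_sum_of_fintype, ← Nat.card_sigma]
  refine Nat.card_congr
    { toFun := fun a => ⟨⟨g a.1, a.2.2⟩, ⟨a.1, a.2.1, rfl⟩⟩
      invFun := fun s => ⟨s.2.1, s.2.2.1, by rw [s.2.2.2]; exact s.1.2⟩
      left_inv := fun a => rfl
      right_inv := ?_ }
  rintro ⟨⟨x, hx⟩, ⟨a, ha, hax⟩⟩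
  change g a = x at hax
  subst hax
  rfl

/-- maps with fibres of the same size agree up to a bijection -/
theorem exists_equiv_of_card {A B X : Type} [Finite A] [Finite B] (f : A → X) (g : B → X)
    (h : ∀ x, Nat.card {a // f a = x} = Nat.card {b // g b = x}) :
    ∃ e : A ≃ B, ∀ a, g (e a) = f a := by
  have e : ∀ x, {a // f a = x} ≃ {b // g b = x} := fun x => (Finite.card_eq.1 (h x)).some
  refine ⟨(Equiv.sigmaFiberEquiv f).symm.trans
    ((Equiv.sigmaCongrRight e).trans (Equiv.sigmaFiberEquiv g)), ?_⟩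
  intro a
  exact (e (f a) ⟨a, rfl⟩).2

theorem regM_of_isFac {V : Type} {d : ℕ} {μ : V → V → ℕ} {F : Fin d → V → V} [hV : Finite V]
    (h : IsFac μ F) : RegM d μ := by
  classical
  refine ⟨hV, ?_, ?_, ?_⟩
  · intro v w
    rw [← h.mult, ← h.mult]
    refine Nat.card_congr (Equiv.subtypeEquivRight fun i => ?_)
    constructor
    · intro h1
      rw [← h1, h.inv]
    · intro h1
      rw [← h1, h.inv]
  · intro v
    rw [← h.mult, Nat.card_eq_zero]
    left
    exact ⟨fun i => h.ne i.1 v i.2⟩
  · intro v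
    have := Fintype.ofFinite V
    rw [finsum_eq_sum_of_fintype]
    have h1 := card_fib (fun i : Fin d => F i v)
    rw [Nat.card_eq_fintype_card, Fintype.card_fin] at h1
    rw [h1]
    exact Finset.sum_congr rfl fun w _ => (h.mult v w).symm

end Pool.Agent.Y672.ZS
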