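import Pool.Agent.Y672.ZS.Base

/-!
# Splicing of multigraphs
-/

set_option autoImplicit false

namespace Pool.Agent.Y672.ZS

open Finset Pool.Agent.Y819.ZF Pool.Agent.TH378.LC

theorem card_T1 {V W : Type} [Finite V] [Finite W] (c : V → W → ℕ) (v : V) :
    Nat.card {t : (Σ x : V × W, Fin (c x.1 x.2)) // t.1.1 = v} = ∑ᶠ w, c v w := by
  classical
  have := Fintype.ofFinite W
  rw [finsum_eq_sum_of_fintype]
  have h1 : ∑ w, c v w = ∑ w, Nat.card (Fin (c v w)) := by simp
  rw [h1, ← Nat.card_sigma]
  refine Nat.card_congr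
    { toFun := fun t => ⟨t.1.1.2, Fin.cast (by rw [t.2]) t.1.2⟩
      invFun := fun s => ⟨⟨(v, s.1), s.2⟩, rfl⟩
      left_inv := ?_
      right_inv := ?_ }
  · rintro ⟨⟨⟨v', w⟩, k⟩, h⟩
    simp only at h
    subst h
    rfl
  · rintro ⟨w, k⟩
    rfl

theorem card_T2 {V W : Type} [Finite V] [Finite W] (c : V → W → ℕ) (w : W) :
    Nat.card {t : (Σ x : V × W, Fin (c x.1 x.2)) // t.1.2 = w} = ∑ᶠ v, c v w := by
  classical
  have := Fintype.ofFinite V
  rw [finsum_eq_sum_of_fintype]
  have h1 : ∑ v, c v w = ∑ v, Nat.card (Fin (c v w)) := by simp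
  rw [h1, ← Nat.card_sigma]
  refine Nat.card_congr
    { toFun := fun t => ⟨t.1.1.1, Fin.cast (by rw [t.2]) t.1.2⟩
      invFun := fun s => ⟨⟨(s.1, w), s.2⟩, rfl⟩
      left_inv := ?_
      right_inv := ?_ }
  · rintro ⟨⟨⟨v, w'⟩, k⟩, h⟩
    simp only at h
    subst h
    rfl
  · rintro ⟨v, k⟩
    rfl

theorem card_T {V W : Type} (c : V → W → ℕ) (v : V) (w : W) :
    Nat.card {t : (Σ x : V × W, Fin (c x.1 x.2)) // t.1 = (v, w)} = c v w := by
  rw [Nat.card_congr (Equiv.sigmaSubtype (β := fun x : V × W => Fin (c x.1 x.2)) (v, w))]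
  simp

theorem main (h1 : S_FACB) (h2 : S_FACF) : S_SPLM := by
  classical
  intro p hp hp2 V W μ ν c hμ hν hc1 hc2 hOμ hOν
  obtain ⟨F1, hF1, hA1⟩ := h2 p (Option V) μ hμ hOμ
  obtain ⟨F2, hF2, hA2⟩ := h2 p (Option W) ν hν hOν
  have hfV' : Finite (Option V) := hμ.fin
  have hfW' : Finite (Option W) := hν.fin
  have hfV : Finite V := Finite.of_injective (some : V → Option V) (Option.some_injective _)
  have hfW : Finite W := Finite.of_injective (some : W → Option W) (Option.some_injective _)
  have hd : 1 ≤ p - 2 := by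
    have := hp.out.two_le
    omega
  have ha : ∀ i, ∃ a, F1 i none = some a := exists_a F1 hF1.ne
  have hb : ∀ i, ∃ b, F2 i none = some b := exists_a F2 hF2.ne
  choose a ha using ha
  choose b hb using hb
  obtain ⟨e1, he1⟩ := exists_equiv_of_card a
    (fun t : (Σ x : V × W, Fin (c x.1 x.2)) => t.1.1) (by
      intro v
      rw [card_T1, hc1, ← hF1.mult]
      refine Nat.card_congr (Equiv.subtypeEquivRight fun i => ?_)
      rw [ha, Option.some_inj])
  obtain ⟨e2, he2⟩ := exists_equiv_of_card b
    (fun t : (Σ x : V × W, Fin (c x.1 x.2)) => t.1.2) (by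
      intro w
      rw [card_T2, hc2, ← hF2.mult]
      refine Nat.card_congr (Equiv.subtypeEquivRight fun i => ?_)
      rw [hb, Option.some_inj])
  obtain ⟨π, hπ⟩ : ∃ π : Equiv.Perm (Fin (p - 2)), ∀ i, e2 (π i) = e1 i :=
    ⟨e1.trans e2.symm, fun i => by simp⟩
  have hcard : ∀ v w, Nat.card {i // a i = v ∧ b (π i) = w} = c v w := by
    intro v w
    rw [← card_T c v w]
    refine Nat.card_congr (Equiv.subtypeEquiv e1 fun i => ?_)
    rw [← he1, ← he2, hπ]
    constructor
    · rintro ⟨h3, h4⟩
      exact Prod.ext h3 h4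
    · intro h3
      rw [h3]
      exact ⟨rfl, rfl⟩
  obtain ⟨F2', hF2'⟩ : ∃ F2' : Fin (p - 2) → Option W → Option W, ∀ i, F2' i = F2 (π i) :=
    ⟨fun i => F2 (π i), fun _ => rfl⟩
  have hinv2 : ∀ i w, F2' i (F2' i w) = w := fun i w => by rw [hF2']; exact hF2.inv _ _
  have hne2 : ∀ i w, F2' i w ≠ w := fun i w => by rw [hF2']; exact hF2.ne _ _
  have hA2' : ∀ _ : Fintype (Option W), ¬ (p : ℤ) ∣ AT F2' := by
    intro inst
    have h3 : F2' = fun i => F2 (π i) := funext hF2'
    rw [h3, AT_relabel (even_of_inv (F2 ⟨0, hd⟩) (hF2.inv _) (hF2.ne _))]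
    exact hA2 inst
  have hb' : ∀ i, F2' i none = some (b (π i)) := fun i => by rw [hF2', hb]
  have hn1 : ∀ i v, F1 i (some v) = none ↔ a i = v := by
    intro i v
    constructor
    · intro h3
      have h4 : F1 i none = some v := by rw [← h3, hF1.inv]
      rw [ha] at h4
      exact Option.some.inj h4
    · intro h3
      rw [← h3, ← ha, hF1.inv]
  have hn2 : ∀ i w, F2' i (some w) = none ↔ b (π i) = w := by
    intro i w
    constructor
    · intro h3
      have h4 : F2' i none = some w := by rw [← h3, hinv2]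
      rw [hb'] at h4
      exact Option.some.inj h4
    · intro h3
      rw [← h3, ← hb', hinv2]
  have hfac : IsFac (splM μ ν c) (splice F1 F2') := by
    refine ⟨splice_inv F1 F2' hF1.inv hF1.ne hinv2 hne2, splice_ne F1 F2' hF1.ne hne2, ?_⟩
    intro x y
    rcases x with v | w
    · rcases y with v' | w'
      · change _ = μ (some v) (some v')
        rw [← hF1.mult]
        refine Nat.card_congr (Equiv.subtypeEquivRight fun i => ?_)
        cases h : F1 i (some v) with
        | some u => rw [splice_inl_some F1 F2' h, Sum.inl.injEq, Option.some_inj]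
        | none =>
          rw [splice_inl_none F1 F2' h (hb' i)]
          simp
      · change _ = c v w'
        rw [← hcard]
        refine Nat.card_congr (Equiv.subtypeEquivRight fun i => ?_)
        cases h : F1 i (some v) with
        | some u =>
          rw [splice_inl_some F1 F2' h]
          have h3 : ¬ a i = v := by
            rw [← hn1, h]
            simp
          simp [h3]
        | none =>
          rw [splice_inl_none F1 F2' h (hb' i), Sum.inr.injEq]
          exact ⟨fun h3 => ⟨(hn1 i v).1 h, h3⟩, fun h3 => h3.2⟩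
    · rcases y with v' | w'
      · change _ = c v' w
        rw [← hcard]
        refine Nat.card_congr (Equiv.subtypeEquivRight fun i => ?_)
        cases h : F2' i (some w) with
        | some u =>
          rw [splice_inr_some F1 F2' h]
          have h3 : ¬ b (π i) = w := by
            rw [← hn2, h]
            simp
          simp [h3]
        | none =>
          rw [splice_inr_none F1 F2' h (ha i), Sum.inl.injEq]
          exact ⟨fun h3 => ⟨h3, (hn2 i w).1 h⟩, fun h3 => h3.1⟩
      · change _ = ν (some w) (some w')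
        rw [← hF2.mult]
        refine Nat.card_congr (Equiv.subtypeEquiv π fun i => ?_)
        rw [← hF2']
        cases h : F2' i (some w) with
        | some u => rw [splice_inr_some F1 F2' h, Sum.inr.injEq, Option.some_inj]
        | none =>
          rw [splice_inr_none F1 F2' h (ha i)]
          simp
  refine ⟨regM_of_isFac hfac, h1 p (V ⊕ W) _ _ hfac fun inst => ?_⟩
  exact splice_not_dvd p hp.out hd F1 F2' hF1.inv hF1.ne hinv2 hne2 hA1 hA2' inst

end Pool.Agent.Y672.ZS
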